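import Mathlib

/-!
# EHP, Form S, (S3): bounds for `q₂ = 2 (F_lg² - F_ll F_gg)`, uniform in the regularisation parameter `e`

Pure algebra. `ρ = |ζ| = e^l`, `C = cosh g`, `S = sinh g`, `R² = (ρ - p C)² + p (1 - p) S² + e²`, `F = arcosh (1 + v)`.
-/

set_option autoImplicit false

noncomputable section

namespace Pool.Agent.H86.EC

/-- `2 (F_lg² - F_ll F_gg)` for `F = arcosh (1 + v)`, in terms of the derivatives of `v` -/
def q2v (v vl vg vll vlg vgg : ℝ) : ℝ :=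
  2 * ((vlg ^ 2 - vll * vgg) / (v ^ 2 + 2 * v) +
    (1 + v) / (v ^ 2 + 2 * v) ^ 2 * (vll * vg ^ 2 + vgg * vl ^ 2 - 2 * vlg * vl * vg))

theorem q2v_bound {v vl vg vll vlg vgg ρ R k M : ℝ} (hv : 0 < v) (hR : 0 < R) (hρ : 0 ≤ ρ)
    (hk : 0 ≤ k) (hM : ρ ≤ M)
    (h1 : |vl| ≤ k * ρ * v / R) (h2 : |vll| ≤ k * ρ * v / R ^ 2) (h3 : vg ^ 2 ≤ k * v / R)
    (h4 : vlg ^ 2 ≤ k * ρ ^ 2 * v / R ^ 3) (h5 : |vgg| ≤ k / R) :
    |q2v v vl vg vll vlg vgg| ≤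
      (k * M + k ^ 2 + (k ^ 2 + k ^ 3 * M + 2 * k ^ 2 * M) / 2) * ρ / R ^ 3 := by
  have hM0 : 0 ≤ M := hρ.trans hM
  have hs : 0 < v ^ 2 + 2 * v := by positivity
  -- the two denominators
  have hd1 : ∀ x : ℝ, 0 ≤ x → x / (v ^ 2 + 2 * v) ≤ x / (2 * v) := fun x hx =>
    div_le_div_of_nonneg_left hx (by positivity) (by nlinarith [sq_nonneg v])
  have hd2 : (1 + v) / (v ^ 2 + 2 * v) ^ 2 ≤ 1 / (4 * v ^ 2) := by
    rw [div_le_div_iff₀ (by positivity) (by positivity)]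
    have : 0 < v ^ 2 := by positivity
    nlinarith [mul_pos this this, mul_nonneg this.le (sq_nonneg v)]
  have hd3 : 0 ≤ (1 + v) / (v ^ 2 + 2 * v) ^ 2 := by positivity
  -- products
  have e1 : vlg ^ 2 / (2 * v) ≤ k * M / 2 * ρ / R ^ 3 := by
    calc vlg ^ 2 / (2 * v) ≤ (k * ρ ^ 2 * v / R ^ 3) / (2 * v) := by gcongr
      _ = k * ρ / 2 * ρ / R ^ 3 := by field_simp
      _ ≤ k * M / 2 * ρ / R ^ 3 := by gcongr
  have e2 : |vll| * |vgg| / (2 * v) ≤ k ^ 2 / 2 * ρ / R ^ 3 := by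
    calc |vll| * |vgg| / (2 * v) ≤ (k * ρ * v / R ^ 2) * (k / R) / (2 * v) := by gcongr
      _ = k ^ 2 / 2 * ρ / R ^ 3 := by field_simp
  have e3 : |vll| * vg ^ 2 / (4 * v ^ 2) ≤ k ^ 2 / 4 * ρ / R ^ 3 := by
    calc |vll| * vg ^ 2 / (4 * v ^ 2) ≤ (k * ρ * v / R ^ 2) * (k * v / R) / (4 * v ^ 2) := by gcongr
      _ = k ^ 2 / 4 * ρ / R ^ 3 := by field_simp
  have e4 : |vgg| * vl ^ 2 / (4 * v ^ 2) ≤ k ^ 3 * M / 4 * ρ / R ^ 3 := by
    have : vl ^ 2 = |vl| ^ 2 := (sq_abs vl).symm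
    rw [this]
    calc |vgg| * |vl| ^ 2 / (4 * v ^ 2) ≤ (k / R) * (k * ρ * v / R) ^ 2 / (4 * v ^ 2) := by gcongr
      _ = k ^ 3 * ρ / 4 * ρ / R ^ 3 := by field_simp
      _ ≤ k ^ 3 * M / 4 * ρ / R ^ 3 := by gcongr
  have e5 : |vlg * vg| ≤ k * ρ * v / R ^ 2 := by
    apply abs_le_of_sq_le_sq _ (by positivity)
    calc (vlg * vg) ^ 2 = vlg ^ 2 * vg ^ 2 := by ring
      _ ≤ (k * ρ ^ 2 * v / R ^ 3) * (k * v / R) := by gcongr
      _ = (k * ρ * v / R ^ 2) ^ 2 := by field_simp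
  have e6 : 2 * (|vlg * vg| * |vl|) / (4 * v ^ 2) ≤ 2 * k ^ 2 * M / 4 * ρ / R ^ 3 := by
    calc 2 * (|vlg * vg| * |vl|) / (4 * v ^ 2)
        ≤ 2 * ((k * ρ * v / R ^ 2) * (k * ρ * v / R)) / (4 * v ^ 2) := by gcongr
      _ = 2 * k ^ 2 * ρ / 4 * ρ / R ^ 3 := by field_simp
      _ ≤ 2 * k ^ 2 * M / 4 * ρ / R ^ 3 := by gcongr
  -- assemble
  have a1 : |(vlg ^ 2 - vll * vgg) / (v ^ 2 + 2 * v)| ≤ vlg ^ 2 / (2 * v) + |vll| * |vgg| / (2 * v) := by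
    rw [abs_div, abs_of_pos hs, ← add_div]
    calc |vlg ^ 2 - vll * vgg| / (v ^ 2 + 2 * v) ≤ (vlg ^ 2 + |vll| * |vgg|) / (v ^ 2 + 2 * v) := by
          gcongr
          calc |vlg ^ 2 - vll * vgg| ≤ |vlg ^ 2| + |vll * vgg| := abs_sub _ _
            _ = vlg ^ 2 + |vll| * |vgg| := by rw [abs_of_nonneg (sq_nonneg vlg), abs_mul]
      _ ≤ _ := hd1 _ (by positivity)
  have a2 : |(1 + v) / (v ^ 2 + 2 * v) ^ 2 * (vll * vg ^ 2 + vgg * vl ^ 2 - 2 * vlg * vl * vg)| ≤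
      |vll| * vg ^ 2 / (4 * v ^ 2) + |vgg| * vl ^ 2 / (4 * v ^ 2) +
        2 * (|vlg * vg| * |vl|) / (4 * v ^ 2) := by
    rw [abs_mul, abs_of_nonneg hd3, ← add_div, ← add_div]
    have b : |vll * vg ^ 2 + vgg * vl ^ 2 - 2 * vlg * vl * vg| ≤
        |vll| * vg ^ 2 + |vgg| * vl ^ 2 + 2 * (|vlg * vg| * |vl|) := by
      calc |vll * vg ^ 2 + vgg * vl ^ 2 - 2 * vlg * vl * vg|
          ≤ |vll * vg ^ 2 + vgg * vl ^ 2| + |2 * vlg * vl * vg| := abs_sub _ _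
        _ ≤ |vll * vg ^ 2| + |vgg * vl ^ 2| + |2 * vlg * vl * vg| := by
            gcongr; exact abs_add_le _ _
        _ = |vll| * vg ^ 2 + |vgg| * vl ^ 2 + 2 * (|vlg * vg| * |vl|) := by
            rw [abs_mul, abs_mul vgg, abs_of_nonneg (sq_nonneg vg), abs_of_nonneg (sq_nonneg vl)]
            have : 2 * vlg * vl * vg = 2 * ((vlg * vg) * vl) := by ring
            rw [this, abs_mul, abs_mul (vlg * vg), abs_of_pos (by norm_num : (0:ℝ) < 2)]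
    calc (1 + v) / (v ^ 2 + 2 * v) ^ 2 * |vll * vg ^ 2 + vgg * vl ^ 2 - 2 * vlg * vl * vg|
        ≤ 1 / (4 * v ^ 2) * (|vll| * vg ^ 2 + |vgg| * vl ^ 2 + 2 * (|vlg * vg| * |vl|)) := by
          gcongr
      _ = _ := by ring
  unfold q2v
  rw [abs_mul, abs_of_pos (by norm_num : (0:ℝ) < 2)]
  have a3 := abs_add_le ((vlg ^ 2 - vll * vgg) / (v ^ 2 + 2 * v))
    ((1 + v) / (v ^ 2 + 2 * v) ^ 2 * (vll * vg ^ 2 + vgg * vl ^ 2 - 2 * vlg * vl * vg))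
  have fin : (k * M + k ^ 2 + (k ^ 2 + k ^ 3 * M + 2 * k ^ 2 * M) / 2) * ρ / R ^ 3 =
      2 * (k * M / 2 * ρ / R ^ 3 + k ^ 2 / 2 * ρ / R ^ 3 + (k ^ 2 / 4 * ρ / R ^ 3 +
        k ^ 3 * M / 4 * ρ / R ^ 3 + 2 * k ^ 2 * M / 4 * ρ / R ^ 3)) := by ring
  rw [fin]
  linarith

/-- a point of the `(ρ, g)` half plane -/
structure Pt (p ρ C S R e : ℝ) : Prop where
  p0 : 0 < p
  p1 : p < 1
  ρ0 : 0 < ρ
  C1 : 1 ≤ C
  S0 : 0 ≤ S
  CS : C ^ 2 = S ^ 2 + 1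
  pos : 0 < p * (1 - p) * S ^ 2 + e ^ 2
  R0 : 0 < R
  R2 : R ^ 2 = (ρ - p * C) ^ 2 + p * (1 - p) * S ^ 2 + e ^ 2

variable {p ρ C S R e M : ℝ}

theorem Pt.YZ (h : Pt p ρ C S R e) :
    (R + ρ - p * C) * (R - ρ + p * C) = p * (1 - p) * S ^ 2 + e ^ 2 := by
  linear_combination h.R2

theorem Pt.abs_le' (h : Pt p ρ C S R e) : |ρ - p * C| ≤ R :=
  abs_le_of_sq_le_sq (by rw [h.R2]; linarith [h.pos]) h.R0.le

theorem Pt.Y_pos (h : Pt p ρ C S R e) : 0 < R + ρ - p * C := by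
  have h1 := h.YZ
  have h2 := _root_.abs_le.1 h.abs_le'
  have h3 : 0 ≤ R - ρ + p * C := by linarith [h2.2]
  by_contra hc
  push Not at hc
  nlinarith [h.pos]

theorem Pt.Z_pos (h : Pt p ρ C S R e) : 0 < R - ρ + p * C := by
  have h1 := h.YZ
  by_contra hc
  push Not at hc
  nlinarith [h.pos, h.Y_pos]

theorem Pt.Y_le (h : Pt p ρ C S R e) : R + ρ - p * C ≤ 2 * R := by
  linarith [(_root_.abs_le.1 h.abs_le').2]

theorem Pt.Z_le (h : Pt p ρ C S R e) : R - ρ + p * C ≤ 2 * R := by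
  linarith [(_root_.abs_le.1 h.abs_le').1]

/-- `p (1-p) S² ≤ R²` -/
theorem Pt.S_le (h : Pt p ρ C S R e) : p * (1 - p) * S ^ 2 ≤ R ^ 2 := by
  rw [h.R2]; nlinarith [sq_nonneg (ρ - p * C), sq_nonneg e]

/-- all the upper bounds we need: `ρ, C, |C - ρ|, R ≤ M`, `1 ≤ M` -/
structure Bdd (ρ C R M : ℝ) : Prop where
  M1 : 1 ≤ M
  ρM : ρ ≤ M
  CM : C ≤ M
  RM : R ≤ M

/-- `C - 1 ≤ S² / 2` -/
theorem Pt.C_le (h : Pt p ρ C S R e) : C - 1 ≤ S ^ 2 / 2 := by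
  nlinarith [h.CS, h.C1]

/-- the function `v = cosh F - 1`: case A -/
def vA (p ρ C R : ℝ) : ℝ := (R + ρ - p) / p
def vAl (p ρ C R : ℝ) : ℝ := ρ * (R + ρ - p * C) / (p * R)
def vAg (ρ C S R : ℝ) : ℝ := S * (C - ρ) / R
def vAll (p ρ C R : ℝ) : ℝ := vAl p ρ C R * (1 + ρ / R - ρ * (ρ - p * C) / R ^ 2)
def vAlg (p ρ C S R : ℝ) : ℝ := -(ρ * S * (R ^ 2 + (ρ - p * C) * (C - ρ)) / R ^ 3)
def vAgg (p ρ C S R : ℝ) : ℝ := S ^ 2 * (R ^ 2 - p * (C - ρ) ^ 2) / R ^ 3 + C * (C - ρ) / R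

/-- the function `v = cosh F - 1`: case B -/
def vB (p ρ C R : ℝ) : ℝ := (R - ρ + C - 1 + p) / (1 - p)
def vBl (p ρ C R : ℝ) : ℝ := -(ρ * (R - ρ + p * C) / ((1 - p) * R))
def vBg (p ρ C S R : ℝ) : ℝ := S * (R + p * (C - ρ)) / ((1 - p) * R)
def vBll (p ρ C R : ℝ) : ℝ := vBl p ρ C R * (1 - ρ / R - ρ * (ρ - p * C) / R ^ 2)
def vBlg (p ρ C S R : ℝ) : ℝ :=
  -(ρ * S * (p * (R ^ 2 + (ρ - p * C) * (C - ρ))) / ((1 - p) * R ^ 3))
def vBgg (p ρ C S R : ℝ) : ℝ :=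
  (S ^ 2 * (p * (R ^ 2 - p * (C - ρ) ^ 2)) / R ^ 3 + C * (p * (C - ρ) / R + 1)) / (1 - p)

theorem vA_eq (h : Pt p ρ C S R e) : p * vA p ρ C R = (R + ρ - p * C) + p * (C - 1) := by
  have := h.p0
  unfold vA; field_simp; ring

theorem vB_eq (h : Pt p ρ C S R e) :
    (1 - p) * vB p ρ C R = (R - ρ + p * C) + (1 - p) * (C - 1) := by
  have : 1 - p ≠ 0 := by linarith [h.p1]
  unfold vB; field_simp; ring

theorem vA_ge (h : Pt p ρ C S R e) : (R + ρ - p * C) ≤ p * vA p ρ C R := by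
  rw [vA_eq h]; nlinarith [h.p0, h.C1]

theorem vB_ge (h : Pt p ρ C S R e) : (R - ρ + p * C) ≤ (1 - p) * vB p ρ C R := by
  rw [vB_eq h]; nlinarith [h.p1, h.C1]

theorem vA_pos (h : Pt p ρ C S R e) : 0 < vA p ρ C R := by
  have h1 := vA_ge h
  have h2 := h.Y_pos
  by_contra hc
  push Not at hc
  nlinarith [h.p0]

theorem vB_pos (h : Pt p ρ C S R e) : 0 < vB p ρ C R := by
  have h1 := vB_ge h
  have h2 := h.Z_pos
  by_contra hc
  push Not at hc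
  nlinarith [h.p1]

/-- `(1 - p) S² ≤ 2 R v` in case A -/
theorem vA_S (h : Pt p ρ C S R e) : (1 - p) * S ^ 2 ≤ 2 * R * vA p ρ C R := by
  have h1 := vA_ge h
  have h2 := h.Y_pos
  have h3 := h.YZ
  have h4 := h.Z_le
  have h5 : p * (1 - p) * S ^ 2 ≤ (R + ρ - p * C) * (2 * R) := by
    nlinarith [sq_nonneg e]
  have h6 : (R + ρ - p * C) * (2 * R) ≤ (p * vA p ρ C R) * (2 * R) := by
    have := h.R0
    gcongr
  have h7 : p * ((1 - p) * S ^ 2) ≤ p * (2 * R * vA p ρ C R) := by linarith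
  exact le_of_mul_le_mul_left h7 h.p0

/-- `p S² ≤ 2 R v` in case B -/
theorem vB_S (h : Pt p ρ C S R e) : p * S ^ 2 ≤ 2 * R * vB p ρ C R := by
  have h1 := vB_ge h
  have h2 := h.Z_pos
  have h3 := h.YZ
  have h4 := h.Y_le
  have h5 : p * (1 - p) * S ^ 2 ≤ (R - ρ + p * C) * (2 * R) := by
    nlinarith [sq_nonneg e]
  have h6 : (R - ρ + p * C) * (2 * R) ≤ ((1 - p) * vB p ρ C R) * (2 * R) := by
    have := h.R0
    gcongr
  have h7 : (1 - p) * (p * S ^ 2) ≤ (1 - p) * (2 * R * vB p ρ C R) := by linarith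
  exact le_of_mul_le_mul_left h7 (by linarith [h.p1])

theorem vAl_le (h : Pt p ρ C S R e) : |vAl p ρ C R| ≤ ρ * vA p ρ C R / R := by
  have h1 := vA_ge h
  have h2 := h.Y_pos
  have hp := h.p0
  have hR := h.R0
  have hρ := h.ρ0
  unfold vAl
  rw [abs_of_nonneg (by positivity), div_le_div_iff₀ (by positivity) hR]
  nlinarith [mul_le_mul_of_nonneg_left h1 (by positivity : 0 ≤ ρ * R)]

theorem vBl_le (h : Pt p ρ C S R e) : |vBl p ρ C R| ≤ ρ * vB p ρ C R / R := by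
  have h1 := vB_ge h
  have h2 := h.Z_pos
  have hp : 0 < 1 - p := by linarith [h.p1]
  have hR := h.R0
  have hρ := h.ρ0
  unfold vBl
  rw [abs_neg, abs_of_nonneg (by positivity), div_le_div_iff₀ (by positivity) hR]
  nlinarith [mul_le_mul_of_nonneg_left h1 (by positivity : 0 ≤ ρ * R)]

theorem fac_le (h : Pt p ρ C S R e) (b : Bdd ρ C R M) :
    |1 + ρ / R - ρ * (ρ - p * C) / R ^ 2| ≤ 3 * M / R ∧
    |1 - ρ / R - ρ * (ρ - p * C) / R ^ 2| ≤ 3 * M / R := by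
  have hR := h.R0
  have hρ := h.ρ0
  have h1 : |ρ * (ρ - p * C) / R ^ 2| ≤ ρ / R := by
    rw [abs_div, abs_mul, abs_of_pos hρ, abs_of_pos (by positivity : 0 < R ^ 2),
      div_le_div_iff₀ (by positivity) hR]
    nlinarith [mul_le_mul_of_nonneg_left h.abs_le' (by positivity : 0 ≤ ρ * R)]
  have h2 : ρ / R ≤ M / R := by gcongr; exact b.ρM
  have h3 : 1 ≤ M / R := by rw [le_div_iff₀ hR]; linarith [b.RM]
  have h4 : 0 < ρ / R := by positivity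
  have h5 : 3 * M / R = M / R + M / R + M / R := by ring
  rw [h5]
  have h6 := _root_.abs_le.1 h1
  constructor <;> rw [_root_.abs_le] <;> constructor <;> linarith [h6.1, h6.2]

theorem vAll_le (h : Pt p ρ C S R e) (b : Bdd ρ C R M) :
    |vAll p ρ C R| ≤ 3 * M * ρ * vA p ρ C R / R ^ 2 := by
  have hR := h.R0
  have hv := vA_pos h
  have hρ := h.ρ0
  unfold vAll
  rw [abs_mul]
  calc |vAl p ρ C R| * |1 + ρ / R - ρ * (ρ - p * C) / R ^ 2|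
      ≤ (ρ * vA p ρ C R / R) * (3 * M / R) := by
        gcongr
        · exact vAl_le h
        · exact (fac_le h b).1
    _ = _ := by ring

theorem vBll_le (h : Pt p ρ C S R e) (b : Bdd ρ C R M) :
    |vBll p ρ C R| ≤ 3 * M * ρ * vB p ρ C R / R ^ 2 := by
  have hR := h.R0
  have hv := vB_pos h
  have hρ := h.ρ0
  unfold vBll
  rw [abs_mul]
  calc |vBl p ρ C R| * |1 - ρ / R - ρ * (ρ - p * C) / R ^ 2|
      ≤ (ρ * vB p ρ C R / R) * (3 * M / R) := by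
        gcongr
        · exact vBl_le h
        · exact (fac_le h b).2
    _ = _ := by ring

theorem absCρ_le (h : Pt p ρ C S R e) (b : Bdd ρ C R M) : |C - ρ| ≤ M := by
  rw [_root_.abs_le]; constructor <;> linarith [h.C1, h.ρ0, b.CM, b.ρM]

theorem sqCρ_le (h : Pt p ρ C S R e) (b : Bdd ρ C R M) : (C - ρ) ^ 2 ≤ M ^ 2 :=
  sq_le_sq' (by linarith [(_root_.abs_le.1 (absCρ_le h b)).1]) (_root_.abs_le.1 (absCρ_le h b)).2

theorem vAg_le (h : Pt p ρ C S R e) (b : Bdd ρ C R M) :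
    vAg ρ C S R ^ 2 ≤ 2 * M ^ 2 / (1 - p) * vA p ρ C R / R := by
  have hR := h.R0
  have hv := vA_pos h
  have hp : 0 < 1 - p := by linarith [h.p1]
  have hS := vA_S h
  have hS' : S ^ 2 ≤ 2 * R * vA p ρ C R / (1 - p) := by
    rw [le_div_iff₀ hp]; linarith
  have hq := sqCρ_le h b
  calc vAg ρ C S R ^ 2 = S ^ 2 * (C - ρ) ^ 2 / R ^ 2 := by unfold vAg; field_simp
    _ ≤ (2 * R * vA p ρ C R / (1 - p)) * M ^ 2 / R ^ 2 := by
        gcongr ?_ * ?_ / _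
    _ = _ := by field_simp

theorem vBg_le (h : Pt p ρ C S R e) (b : Bdd ρ C R M) :
    vBg p ρ C S R ^ 2 ≤ 8 * M ^ 2 / (p * (1 - p) ^ 2) * vB p ρ C R / R := by
  have hR := h.R0
  have hv := vB_pos h
  have hp0 := h.p0
  have hp : 0 < 1 - p := by linarith [h.p1]
  have hS := vB_S h
  have hS' : S ^ 2 ≤ 2 * R * vB p ρ C R / p := by
    rw [le_div_iff₀ hp0]; linarith
  have hM := b.M1
  have h1 : |R + p * (C - ρ)| ≤ 2 * M := by
    have h2 := _root_.abs_le.1 (absCρ_le h b)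
    have h3 := h.p1
    rw [_root_.abs_le]; constructor
    · nlinarith
    · nlinarith [b.RM]
  have h1' : (R + p * (C - ρ)) ^ 2 ≤ (2 * M) ^ 2 :=
    sq_le_sq' (by linarith [(_root_.abs_le.1 h1).1]) (_root_.abs_le.1 h1).2
  calc vBg p ρ C S R ^ 2 = S ^ 2 * (R + p * (C - ρ)) ^ 2 / ((1 - p) * R) ^ 2 := by
        unfold vBg; field_simp
    _ ≤ (2 * R * vB p ρ C R / p) * (2 * M) ^ 2 / ((1 - p) * R) ^ 2 := by
        gcongr ?_ * ?_ / _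
    _ = _ := by field_simp; ring

/-- `|R² + (ρ - pC)(C - ρ)| ≤ 2 M R` -/
theorem mix_le (h : Pt p ρ C S R e) (b : Bdd ρ C R M) :
    |R ^ 2 + (ρ - p * C) * (C - ρ)| ≤ 2 * M * R := by
  have hR := h.R0
  calc |R ^ 2 + (ρ - p * C) * (C - ρ)| ≤ |R ^ 2| + |(ρ - p * C) * (C - ρ)| := abs_add_le _ _
    _ = R ^ 2 + |ρ - p * C| * |C - ρ| := by rw [abs_of_pos (by positivity), abs_mul]
    _ ≤ R * M + R * M := by
        gcongr
        · rw [sq]; gcongr; exact b.RM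
        · exact h.abs_le'
        · exact absCρ_le h b
    _ = _ := by ring

theorem mix_sq_le (h : Pt p ρ C S R e) (b : Bdd ρ C R M) :
    (R ^ 2 + (ρ - p * C) * (C - ρ)) ^ 2 ≤ (2 * M * R) ^ 2 :=
  sq_le_sq' (by linarith [(_root_.abs_le.1 (mix_le h b)).1]) (_root_.abs_le.1 (mix_le h b)).2

theorem vAlg_le (h : Pt p ρ C S R e) (b : Bdd ρ C R M) :
    vAlg p ρ C S R ^ 2 ≤ 8 * M ^ 2 / (1 - p) * ρ ^ 2 * vA p ρ C R / R ^ 3 := by
  have hR := h.R0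
  have hv := vA_pos h
  have hρ := h.ρ0
  have hp : 0 < 1 - p := by linarith [h.p1]
  have hS := vA_S h
  have hS' : S ^ 2 ≤ 2 * R * vA p ρ C R / (1 - p) := by
    rw [le_div_iff₀ hp]; linarith
  calc vAlg p ρ C S R ^ 2 =
      ρ ^ 2 * S ^ 2 * (R ^ 2 + (ρ - p * C) * (C - ρ)) ^ 2 / (R ^ 3) ^ 2 := by
        unfold vAlg; field_simp
    _ ≤ ρ ^ 2 * (2 * R * vA p ρ C R / (1 - p)) * (2 * M * R) ^ 2 / (R ^ 3) ^ 2 := by
        gcongr ρ ^ 2 * ?_ * ?_ / _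
        exact mix_sq_le h b
    _ = _ := by field_simp; ring

theorem vBlg_le (h : Pt p ρ C S R e) (b : Bdd ρ C R M) :
    vBlg p ρ C S R ^ 2 ≤ 8 * M ^ 2 / (1 - p) ^ 2 * ρ ^ 2 * vB p ρ C R / R ^ 3 := by
  have hR := h.R0
  have hv := vB_pos h
  have hρ := h.ρ0
  have hp0 := h.p0
  have hp : 0 < 1 - p := by linarith [h.p1]
  have hS := vB_S h
  have hpS : p ^ 2 * S ^ 2 ≤ 2 * R * vB p ρ C R := by
    calc p ^ 2 * S ^ 2 = p * (p * S ^ 2) := by ring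
      _ ≤ 1 * (2 * R * vB p ρ C R) := by gcongr; exact h.p1.le
      _ = _ := by ring
  calc vBlg p ρ C S R ^ 2 =
      ρ ^ 2 * (p ^ 2 * S ^ 2) * (R ^ 2 + (ρ - p * C) * (C - ρ)) ^ 2 / ((1 - p) * R ^ 3) ^ 2 := by
        unfold vBlg; field_simp
    _ ≤ ρ ^ 2 * (2 * R * vB p ρ C R) * (2 * M * R) ^ 2 / ((1 - p) * R ^ 3) ^ 2 := by
        gcongr ρ ^ 2 * ?_ * ?_ / _
        exact mix_sq_le h b
    _ = _ := by field_simp; ring

/-- `S² |R² - p (C-ρ)²| ≤ 2 M² R² / (p (1-p))` -/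
theorem rcc_le (h : Pt p ρ C S R e) (b : Bdd ρ C R M) :
    |S ^ 2 * (R ^ 2 - p * (C - ρ) ^ 2) / R ^ 3| ≤ 2 * M ^ 2 / (p * (1 - p)) / R := by
  have hR := h.R0
  have hp0 := h.p0
  have hp : 0 < 1 - p := by linarith [h.p1]
  have hM := b.M1
  have h1 : |R ^ 2 - p * (C - ρ) ^ 2| ≤ 2 * M ^ 2 := by
    have h2 := sqCρ_le h b
    have h3 : R ^ 2 ≤ M ^ 2 := by have := b.RM; gcongr
    have h4 := h.p1
    have h5 := sq_nonneg (C - ρ)
    rw [_root_.abs_le]; constructor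
    · nlinarith [sq_nonneg R]
    · nlinarith
  have h2 : S ^ 2 ≤ R ^ 2 / (p * (1 - p)) := by
    rw [le_div_iff₀ (by positivity)]; linarith [h.S_le]
  rw [abs_div, abs_mul, abs_of_nonneg (sq_nonneg S), abs_of_pos (by positivity : 0 < R ^ 3)]
  calc S ^ 2 * |R ^ 2 - p * (C - ρ) ^ 2| / R ^ 3
      ≤ (R ^ 2 / (p * (1 - p))) * (2 * M ^ 2) / R ^ 3 := by gcongr
    _ = _ := by field_simp

theorem vAgg_le (h : Pt p ρ C S R e) (b : Bdd ρ C R M) :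
    |vAgg p ρ C S R| ≤ 3 * M ^ 2 / (p * (1 - p)) / R := by
  have hR := h.R0
  have hp0 := h.p0
  have hp : 0 < 1 - p := by linarith [h.p1]
  have hM := b.M1
  have h1 := rcc_le h b
  have h2 : |C * (C - ρ) / R| ≤ M ^ 2 / (p * (1 - p)) / R := by
    have hC : 0 ≤ C := by linarith [h.C1]
    rw [abs_div, abs_mul, abs_of_nonneg hC, abs_of_pos hR]
    gcongr
    calc C * |C - ρ| ≤ M * M := by
          gcongr
          · exact b.CM
          · exact absCρ_le h b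
      _ = M ^ 2 := by ring
      _ ≤ M ^ 2 / (p * (1 - p)) := by
          rw [le_div_iff₀ (by positivity)]
          have : p * (1 - p) ≤ 1 := by nlinarith [h.p1]
          nlinarith [sq_nonneg M]
  unfold vAgg
  calc _ ≤ |S ^ 2 * (R ^ 2 - p * (C - ρ) ^ 2) / R ^ 3| + |C * (C - ρ) / R| := abs_add_le _ _
    _ ≤ 2 * M ^ 2 / (p * (1 - p)) / R + M ^ 2 / (p * (1 - p)) / R := by gcongr
    _ = _ := by ring

theorem vBgg_le (h : Pt p ρ C S R e) (b : Bdd ρ C R M) :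
    |vBgg p ρ C S R| ≤ 4 * M ^ 2 / (p * (1 - p) ^ 2) / R := by
  have hR := h.R0
  have hp0 := h.p0
  have hp : 0 < 1 - p := by linarith [h.p1]
  have hM := b.M1
  have h1 := rcc_le h b
  have h1' : |S ^ 2 * (p * (R ^ 2 - p * (C - ρ) ^ 2)) / R ^ 3| ≤ 2 * M ^ 2 / (p * (1 - p)) / R := by
    have : S ^ 2 * (p * (R ^ 2 - p * (C - ρ) ^ 2)) / R ^ 3 =
        p * (S ^ 2 * (R ^ 2 - p * (C - ρ) ^ 2) / R ^ 3) := by ring
    rw [this, abs_mul, abs_of_pos hp0]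
    calc p * |S ^ 2 * (R ^ 2 - p * (C - ρ) ^ 2) / R ^ 3|
        ≤ 1 * |S ^ 2 * (R ^ 2 - p * (C - ρ) ^ 2) / R ^ 3| := by
          gcongr; exact h.p1.le
      _ ≤ _ := by rw [one_mul]; exact h1
  have h2 : |C * (p * (C - ρ) / R + 1)| ≤ 2 * M ^ 2 / (p * (1 - p)) / R := by
    have hC : 0 ≤ C := by linarith [h.C1]
    have h3 : |p * (C - ρ) / R + 1| ≤ 2 * M / R := by
      calc |p * (C - ρ) / R + 1| ≤ |p * (C - ρ) / R| + |(1:ℝ)| := abs_add_le _ _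
        _ = p * |C - ρ| / R + 1 := by
            rw [abs_div, abs_mul, abs_of_pos hp0, abs_of_pos hR, abs_one]
        _ ≤ 1 * M / R + M / R := by
            gcongr
            · exact h.p1.le
            · exact absCρ_le h b
            · rw [le_div_iff₀ hR]; linarith [b.RM]
        _ = _ := by ring
    rw [abs_mul, abs_of_nonneg hC]
    calc C * |p * (C - ρ) / R + 1| ≤ M * (2 * M / R) := by
          gcongr; exact b.CM
      _ = 2 * M ^ 2 / R := by ring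
      _ ≤ 2 * M ^ 2 / (p * (1 - p)) / R := by
          gcongr
          rw [le_div_iff₀ (by positivity)]
          have : p * (1 - p) ≤ 1 := by nlinarith [h.p1]
          nlinarith [sq_nonneg M]
  unfold vBgg
  rw [abs_div, abs_of_pos hp, div_le_iff₀ hp]
  calc |S ^ 2 * (p * (R ^ 2 - p * (C - ρ) ^ 2)) / R ^ 3 + C * (p * (C - ρ) / R + 1)|
      ≤ |S ^ 2 * (p * (R ^ 2 - p * (C - ρ) ^ 2)) / R ^ 3| + |C * (p * (C - ρ) / R + 1)| :=
        abs_add_le _ _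
    _ ≤ 2 * M ^ 2 / (p * (1 - p)) / R + 2 * M ^ 2 / (p * (1 - p)) / R := by gcongr
    _ = 4 * M ^ 2 / (p * (1 - p) ^ 2) / R * (1 - p) := by field_simp; ring

end Pool.Agent.H86.EC
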