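import Pool.Agent.H10.EH.FC
import Pool.Agent.H86.EC.QB

/-!
# EHP, block A5: bounds for the derivatives of `F_A` and `F_B` near the singular point `(p, 0)`

For `0 < p < 1` and `M ≥ 1` there is `K` such that for `rh l ≤ M`, `0 < g ≤ M` (`ρ = rh l`, `R = RR p l g`):
`|F_ll F_g| ≤ K ρ sinh g / R³`, `F_l² ≤ K ρ² / R`, `F_g² ≤ K / R`, `(ρ - p)² + g² ≤ K R²`.
-/

set_option autoImplicit false

noncomputable section

namespace Pool.Agent.H86.EC

open Pool.EH Real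

variable {p l g M : ℝ}

theorem pt (hp : 0 < p) (hp1 : p < 1) (hg : 0 < g) :
    Pt p (rh l) (cosh g) (sinh g) (RR p l g) 0 where
  p0 := hp
  p1 := hp1
  ρ0 := rh_pos l
  C1 := one_le_cosh g
  S0 := (sinh_pos_iff.2 hg).le
  CS := by rw [cosh_sq]
  pos := by
    have : 0 < sinh g := sinh_pos_iff.2 hg
    have : 0 < 1 - p := by linarith
    positivity
  R0 := RR_pos hp hp1 l hg
  R2 := by rw [RR_sq hp hp1]; ring

theorem vA_cosh (hp : 0 < p) (hp1 : p < 1) (hg : 0 < g) :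
    vA p (rh l) (cosh g) (RR p l g) = cosh (FA p l g) - 1 := by
  rw [cosh_FA hp hp1 l hg]; unfold vA; field_simp; ring

theorem vB_cosh (hp : 0 < p) (hp1 : p < 1) (hg : 0 < g) :
    vB p (rh l) (cosh g) (RR p l g) = cosh (FB p l g) - 1 := by
  have : 1 - p ≠ 0 := by linarith
  rw [cosh_FB hp hp1 l hg]; unfold vB; field_simp; ring

theorem FAg_eq (hp : 0 < p) (hp1 : p < 1) (hg : 0 < g) :
    FAg p l g = vAg (rh l) (cosh g) (sinh g) (RR p l g) / sinh (FA p l g) := by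
  have h1 := (RR_pos hp hp1 l hg).ne'
  have h2 := (sinh_FA_pos hp hp1 l hg).ne'
  unfold FAg vAg; field_simp

theorem FAl_eq (hp : 0 < p) (hp1 : p < 1) (hg : 0 < g) :
    FAl p l g = vAl p (rh l) (cosh g) (RR p l g) / sinh (FA p l g) := by
  have h1 := (RR_pos hp hp1 l hg).ne'
  have h2 := (sinh_FA_pos hp hp1 l hg).ne'
  have h3 := RR_eq_A hp hp1 l hg
  unfold FAl vAl
  have h4 : RR p l g + rh l - p * cosh g = p * (cosh (FA p l g) - cosh g) := by
    rw [h3]; ring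
  rw [h4]; field_simp

theorem FBg_eq (hp : 0 < p) (hp1 : p < 1) (hg : 0 < g) :
    FBg p l g = vBg p (rh l) (cosh g) (sinh g) (RR p l g) / sinh (FB p l g) := by
  have h1 := (RR_pos hp hp1 l hg).ne'
  have h2 := (sinh_FB_pos hp hp1 l hg).ne'
  have h3 := RR_eq_B hp hp1 l hg
  have h5 : 1 - p ≠ 0 := by linarith
  unfold FBg vBg
  have h4 : RR p l g + p * (cosh g - rh l) = (1 - p) * (cosh (FB p l g) - cosh g + rh l) := by
    rw [h3]; ring
  rw [h4]; field_simp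

theorem FBl_eq (hp : 0 < p) (hp1 : p < 1) (hg : 0 < g) :
    FBl p l g = vBl p (rh l) (cosh g) (RR p l g) / sinh (FB p l g) := by
  have h1 := (RR_pos hp hp1 l hg).ne'
  have h2 := (sinh_FB_pos hp hp1 l hg).ne'
  have h3 := RR_eq_B hp hp1 l hg
  have h5 : 1 - p ≠ 0 := by linarith
  unfold FBl vBl
  have h4 : RR p l g - rh l + p * cosh g = (1 - p) * (cosh (FB p l g) - cosh g) := by
    rw [h3]; ring
  rw [h4]; field_simp

theorem FAll_eq (hp : 0 < p) (hp1 : p < 1) (hg : 0 < g) :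
    FAll p l g = vAll p (rh l) (cosh g) (RR p l g) / sinh (FA p l g) -
      cosh (FA p l g) * vAl p (rh l) (cosh g) (RR p l g) ^ 2 / sinh (FA p l g) ^ 3 := by
  have h1 := (RR_pos hp hp1 l hg).ne'
  have h2 := (sinh_FA_pos hp hp1 l hg).ne'
  have h3 := RR_eq_A hp hp1 l hg
  have h4 : RR p l g + rh l - p * cosh g = p * (cosh (FA p l g) - cosh g) := by
    rw [h3]; ring
  have h6 : rh l - p * cosh g = p * (cosh (FA p l g) - cosh g) - RR p l g := by
    rw [h3]; ring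
  unfold FAll EA DA FAl vAll vAl
  rw [h4, h6]
  field_simp
  ring

theorem FBll_eq (hp : 0 < p) (hp1 : p < 1) (hg : 0 < g) :
    FBll p l g = vBll p (rh l) (cosh g) (RR p l g) / sinh (FB p l g) -
      cosh (FB p l g) * vBl p (rh l) (cosh g) (RR p l g) ^ 2 / sinh (FB p l g) ^ 3 := by
  have h1 := (RR_pos hp hp1 l hg).ne'
  have h2 := (sinh_FB_pos hp hp1 l hg).ne'
  have h3 := RR_eq_B hp hp1 l hg
  have h5 : 1 - p ≠ 0 := by linarith
  have h4 : RR p l g - rh l + p * cosh g = (1 - p) * (cosh (FB p l g) - cosh g) := by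
    rw [h3]; ring
  have h6 : rh l - p * cosh g = RR p l g - (1 - p) * (cosh (FB p l g) - cosh g) := by
    rw [h3]; ring
  unfold FBll EB DB FBl vBll vBl
  rw [h4, h6]
  field_simp
  ring

theorem FAgl_eq (hp : 0 < p) (hp1 : p < 1) (hg : 0 < g) :
    FAgl p l g = vAlg p (rh l) (cosh g) (sinh g) (RR p l g) / sinh (FA p l g) -
      cosh (FA p l g) * vAl p (rh l) (cosh g) (RR p l g) *
        vAg (rh l) (cosh g) (sinh g) (RR p l g) / sinh (FA p l g) ^ 3 := by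
  have h1 := (RR_pos hp hp1 l hg).ne'
  have h2 := (sinh_FA_pos hp hp1 l hg).ne'
  have h3 := RR_eq_A hp hp1 l hg
  have h4 : RR p l g + rh l - p * cosh g = p * (cosh (FA p l g) - cosh g) := by
    rw [h3]; ring
  have h6 : rh l - p * cosh g = p * (cosh (FA p l g) - cosh g) - RR p l g := by
    rw [h3]; ring
  unfold FAgl EA DA FAl FAg vAlg vAl vAg
  rw [h4, h6]
  field_simp
  ring

theorem FBgl_eq (hp : 0 < p) (hp1 : p < 1) (hg : 0 < g) :
    FBgl p l g = vBlg p (rh l) (cosh g) (sinh g) (RR p l g) / sinh (FB p l g) -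
      cosh (FB p l g) * vBl p (rh l) (cosh g) (RR p l g) *
        vBg p (rh l) (cosh g) (sinh g) (RR p l g) / sinh (FB p l g) ^ 3 := by
  have h1 := (RR_pos hp hp1 l hg).ne'
  have h2 := (sinh_FB_pos hp hp1 l hg).ne'
  have h3 := RR_eq_B hp hp1 l hg
  have h5 : 1 - p ≠ 0 := by linarith
  have h4 : RR p l g - rh l + p * cosh g = (1 - p) * (cosh (FB p l g) - cosh g) := by
    rw [h3]; ring
  have h7 : RR p l g + p * (cosh g - rh l) = (1 - p) * (cosh (FB p l g) - cosh g + rh l) := by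
    rw [h3]; ring
  have h6 : cosh g - rh l = (1 - p) * cosh (FB p l g) - RR p l g := by
    rw [h3]; ring
  have h8 : p * (RR p l g ^ 2 + (rh l - p * cosh g) * (cosh g - rh l)) =
      RR p l g * (2 * (1 - p) * (cosh (FB p l g) - cosh g) + (1 - p) * rh l - (1 - p) * RR p l g)
        - (1 - p) * (cosh (FB p l g) - cosh g) * (1 - p) * (cosh (FB p l g) - cosh g + rh l) := by
    rw [h3]; ring
  unfold FBgl EB DB FBl FBg vBlg vBl vBg
  rw [h4, h7, h8]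
  field_simp
  ring

/-- abstract form: `F_ll F_g` from the bounds for `v` -/
theorem llg_bound {v vl vg vll ρ R S k m X s : ℝ} (hv : 0 < v) (hR : 0 < R) (hρ : 0 ≤ ρ)
    (hS : 0 ≤ S) (hk : 0 ≤ k) (hm : ρ ≤ m) (hX : X = 1 + v) (hs : 0 < s) (hs2 : s ^ 2 = v ^ 2 + 2 * v)
    (h1 : |vl| ≤ ρ * v / R) (h2 : |vll| ≤ k * ρ * v / R ^ 2) (h3 : |vg| ≤ k * S / R) :
    |(vll / s - X * vl ^ 2 / s ^ 3) * (vg / s)| ≤ (k ^ 2 / 2 + k * m / 4) * ρ * S / R ^ 3 := by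
  have hm0 : 0 ≤ m := hρ.trans hm
  have e0 : (vll / s - X * vl ^ 2 / s ^ 3) * (vg / s) = vll * vg / s ^ 2 -
      X * vl ^ 2 * vg / (s ^ 2) ^ 2 := by field_simp
  rw [e0]
  have hd : 2 * v ≤ s ^ 2 := by rw [hs2]; nlinarith [sq_nonneg v]
  have hd2 : X / (s ^ 2) ^ 2 ≤ 1 / (4 * v ^ 2) := by
    rw [hs2, hX, div_le_div_iff₀ (by positivity) (by positivity)]
    have : 0 < v ^ 2 := by positivity
    nlinarith [mul_pos this this, mul_nonneg this.le (sq_nonneg v)]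
  have hX0 : 0 < X := by rw [hX]; linarith
  have b1 : |vll * vg / s ^ 2| ≤ k ^ 2 / 2 * ρ * S / R ^ 3 := by
    rw [abs_div, abs_mul, abs_of_pos (by positivity : 0 < s ^ 2)]
    calc |vll| * |vg| / s ^ 2 ≤ (k * ρ * v / R ^ 2) * (k * S / R) / (2 * v) := by gcongr
      _ = _ := by field_simp
  have b2 : |X * vl ^ 2 * vg / (s ^ 2) ^ 2| ≤ k * m / 4 * ρ * S / R ^ 3 := by
    have e1 : |X * vl ^ 2 * vg / (s ^ 2) ^ 2| = X / (s ^ 2) ^ 2 * (|vl| ^ 2 * |vg|) := by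
      rw [abs_div, abs_mul, abs_mul, abs_of_pos hX0, abs_of_pos (by positivity : 0 < (s ^ 2) ^ 2),
        abs_of_nonneg (sq_nonneg vl), sq_abs]
      ring
    rw [e1]
    calc X / (s ^ 2) ^ 2 * (|vl| ^ 2 * |vg|) ≤ 1 / (4 * v ^ 2) * ((ρ * v / R) ^ 2 * (k * S / R)) := by
          gcongr
      _ = k * ρ / 4 * ρ * S / R ^ 3 := by field_simp
      _ ≤ _ := by gcongr
  calc |vll * vg / s ^ 2 - X * vl ^ 2 * vg / (s ^ 2) ^ 2|
      ≤ |vll * vg / s ^ 2| + |X * vl ^ 2 * vg / (s ^ 2) ^ 2| := abs_sub _ _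
    _ ≤ k ^ 2 / 2 * ρ * S / R ^ 3 + k * m / 4 * ρ * S / R ^ 3 := by gcongr
    _ = _ := by ring

/-- the constant bounding everything: `R ≤ 4 m` etc. -/
theorem RR_le (hp : 0 < p) (hp1 : p < 1) (hg : 0 < g) {m : ℝ} (h1 : rh l ≤ m) (h2 : cosh g ≤ m) :
    RR p l g ≤ 3 * m := by
  have h := pt (l := l) hp hp1 hg
  have hm : 0 < m := h.ρ0.trans_le h1
  have h3 : (rh l - p * cosh g) ^ 2 ≤ m ^ 2 := by
    apply sq_le_sq'
    · nlinarith [h.C1, h.ρ0]
    · nlinarith [h.C1, h.ρ0]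
  have h4 : sinh g ^ 2 ≤ m ^ 2 := by
    have := h.CS
    have h5 : cosh g ^ 2 ≤ m ^ 2 := by
      have := h.C1
      gcongr
    linarith
  apply abs_le_of_sq_le_sq' _ (by positivity) |>.2
  rw [h.R2]
  have hpp : p * (1 - p) ≤ 1 := by nlinarith
  have h6 : p * (1 - p) * sinh g ^ 2 ≤ 1 * m ^ 2 := by
    have : 0 ≤ 1 - p := by linarith
    gcongr
  nlinarith [sq_nonneg m]

theorem bdd (hp : 0 < p) (hp1 : p < 1) (hg : 0 < g) {m : ℝ} (h1 : rh l ≤ m) (h2 : cosh g ≤ m) :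
    Bdd (rh l) (cosh g) (RR p l g) (3 * m) where
  M1 := by linarith [one_le_cosh g]
  ρM := by linarith [rh_pos l]
  CM := by linarith [one_le_cosh g]
  RM := RR_le hp hp1 hg h1 h2

/-- `(ρ - p)² + g² ≤ K R²`, no restriction on `l`, `g`. -/
theorem RR_ge (hp : 0 < p) (hp1 : p < 1) : ∃ K, 0 < K ∧ ∀ l g : ℝ, 0 < g →
    (rh l - p) ^ 2 + g ^ 2 ≤ K * RR p l g ^ 2 := by
  have hq : 0 < p * (1 - p) := mul_pos hp (by linarith)
  refine ⟨2 + (2 * p ^ 2 + 1) / (p * (1 - p)), by positivity, fun l g hg => ?_⟩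
  have h := pt (l := l) hp hp1 hg
  have hgS : g ≤ sinh g := self_le_sinh_iff.2 hg.le
  have hCS : cosh g - 1 ≤ sinh g := by
    have := h.CS
    nlinarith [h.S0, h.C1]
  have h1 : (rh l - p) ^ 2 ≤ 2 * (rh l - p * cosh g) ^ 2 + 2 * p ^ 2 * sinh g ^ 2 := by
    have e : rh l - p = (rh l - p * cosh g) + p * (cosh g - 1) := by ring
    have h2 : (cosh g - 1) ^ 2 ≤ sinh g ^ 2 := by
      have : 0 ≤ cosh g - 1 := by linarith [h.C1]
      gcongr
    rw [e]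
    nlinarith [sq_nonneg ((rh l - p * cosh g) - p * (cosh g - 1)),
      mul_le_mul_of_nonneg_left h2 (sq_nonneg p)]
  have h2 : g ^ 2 ≤ sinh g ^ 2 := by gcongr
  have h3 : sinh g ^ 2 ≤ RR p l g ^ 2 / (p * (1 - p)) := by
    rw [le_div_iff₀ hq]; linarith [h.S_le]
  have h4 : (rh l - p * cosh g) ^ 2 ≤ RR p l g ^ 2 := by
    rw [h.R2]; nlinarith [mul_nonneg hq.le (sq_nonneg (sinh g))]
  calc (rh l - p) ^ 2 + g ^ 2 ≤ 2 * (rh l - p * cosh g) ^ 2 + (2 * p ^ 2 + 1) * sinh g ^ 2 := by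
        nlinarith
    _ ≤ 2 * RR p l g ^ 2 + (2 * p ^ 2 + 1) * (RR p l g ^ 2 / (p * (1 - p))) := by gcongr
    _ = _ := by ring

theorem vAg_abs (hp : 0 < p) (hp1 : p < 1) (hg : 0 < g) {m : ℝ} (h1 : rh l ≤ m)
    (h2 : cosh g ≤ m) : |vAg (rh l) (cosh g) (sinh g) (RR p l g)| ≤ 3 * m * sinh g / RR p l g := by
  have h := pt (l := l) hp hp1 hg
  have hR := h.R0
  have hS := h.S0
  unfold vAg
  rw [abs_div, abs_mul, abs_of_nonneg hS, abs_of_pos hR, mul_comm (3 * m) (sinh g)]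
  gcongr
  exact absCρ_le h (bdd hp hp1 hg h1 h2)

theorem vBg_abs (hp : 0 < p) (hp1 : p < 1) (hg : 0 < g) {m : ℝ} (h1 : rh l ≤ m)
    (h2 : cosh g ≤ m) :
    |vBg p (rh l) (cosh g) (sinh g) (RR p l g)| ≤ 6 * m / (1 - p) * sinh g / RR p l g := by
  have h := pt (l := l) hp hp1 hg
  have hR := h.R0
  have hS := h.S0
  have hq : 0 < 1 - p := by linarith
  have b := bdd hp hp1 hg h1 h2
  have h3 : |RR p l g + p * (cosh g - rh l)| ≤ 6 * m := by
    have h4 := _root_.abs_le.1 (absCρ_le h b)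
    have h5 := b.RM
    have h6 := b.M1
    rw [_root_.abs_le]; constructor <;> nlinarith
  unfold vBg
  rw [abs_div, abs_mul, abs_of_nonneg hS, abs_of_pos (by positivity : 0 < (1 - p) * RR p l g)]
  calc sinh g * |RR p l g + p * (cosh g - rh l)| / ((1 - p) * RR p l g)
      ≤ sinh g * (6 * m) / ((1 - p) * RR p l g) := by gcongr
    _ = _ := by field_simp

theorem sinh_sq_vA (hp : 0 < p) (hp1 : p < 1) (hg : 0 < g) : sinh (FA p l g) ^ 2 =
    vA p (rh l) (cosh g) (RR p l g) ^ 2 + 2 * vA p (rh l) (cosh g) (RR p l g) := by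
  rw [vA_cosh hp hp1 hg, sinh_sq]; ring

theorem sinh_sq_vB (hp : 0 < p) (hp1 : p < 1) (hg : 0 < g) : sinh (FB p l g) ^ 2 =
    vB p (rh l) (cosh g) (RR p l g) ^ 2 + 2 * vB p (rh l) (cosh g) (RR p l g) := by
  rw [vB_cosh hp hp1 hg, sinh_sq]; ring

/-- **A5, case A**: `|F_ll F_g| ≤ K ρ sinh g / R³`. -/
theorem FAll_FAg (hp : 0 < p) (hp1 : p < 1) (m : ℝ) : ∃ K, 0 < K ∧ ∀ l g : ℝ, 0 < g →
    rh l ≤ m → cosh g ≤ m → |FAll p l g * FAg p l g| ≤ K * rh l * sinh g / RR p l g ^ 3 := by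
  refine ⟨(9 * |m|) ^ 2 / 2 + 9 * |m| * |m| / 4 + 1, by positivity, fun l g hg h1 h2 => ?_⟩
  have hm : 1 ≤ m := (one_le_cosh g).trans h2
  have hm' : |m| = m := abs_of_nonneg (by linarith)
  rw [hm']
  have h := pt (l := l) hp hp1 hg
  have b := bdd hp hp1 hg h1 h2
  have hR := h.R0
  have hρ := h.ρ0
  have hS := h.S0
  have hv := vA_pos h
  have key := llg_bound (k := 9 * m) (m := m) hv h.R0 h.ρ0.le h.S0 (by linarith) h1
    (by rw [vA_cosh hp hp1 hg]; ring : cosh (FA p l g) = 1 + vA p (rh l) (cosh g) (RR p l g))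
    (sinh_FA_pos hp hp1 l hg) (sinh_sq_vA hp hp1 hg) (vAl_le h)
    (by have := vAll_le h b; calc _ ≤ _ := this
          _ = _ := by ring)
    (by have := vAg_abs hp hp1 hg h1 h2
        calc _ ≤ _ := this
          _ ≤ _ := by gcongr; linarith)
  rw [FAll_eq hp hp1 hg, FAg_eq hp hp1 hg]
  refine key.trans ?_
  have : (9 * m) ^ 2 / 2 + 9 * m * m / 4 ≤ (9 * m) ^ 2 / 2 + 9 * m * m / 4 + 1 := by linarith
  gcongr ?_ * _ * _ / _

/-- **A5, case B**: `|F_ll F_g| ≤ K ρ sinh g / R³`. -/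
theorem FBll_FBg (hp : 0 < p) (hp1 : p < 1) (m : ℝ) : ∃ K, 0 < K ∧ ∀ l g : ℝ, 0 < g →
    rh l ≤ m → cosh g ≤ m → |FBll p l g * FBg p l g| ≤ K * rh l * sinh g / RR p l g ^ 3 := by
  have hq : 0 < 1 - p := by linarith
  refine ⟨(9 * |m| / (1 - p)) ^ 2 / 2 + 9 * |m| / (1 - p) * |m| / 4 + 1, by positivity,
    fun l g hg h1 h2 => ?_⟩
  have hm : 1 ≤ m := (one_le_cosh g).trans h2
  have hm' : |m| = m := abs_of_nonneg (by linarith)
  rw [hm']
  have h := pt (l := l) hp hp1 hg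
  have b := bdd hp hp1 hg h1 h2
  have hR := h.R0
  have hρ := h.ρ0
  have hS := h.S0
  have hv := vB_pos h
  have h9 : 9 * m ≤ 9 * m / (1 - p) := by
    rw [le_div_iff₀ hq]; nlinarith
  have key := llg_bound (k := 9 * m / (1 - p)) (m := m) hv h.R0 h.ρ0.le h.S0 (by positivity) h1
    (by rw [vB_cosh hp hp1 hg]; ring : cosh (FB p l g) = 1 + vB p (rh l) (cosh g) (RR p l g))
    (sinh_FB_pos hp hp1 l hg) (sinh_sq_vB hp hp1 hg) (vBl_le h)
    (by have := vBll_le h b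
        calc _ ≤ _ := this
          _ = 9 * m * rh l * vB p (rh l) (cosh g) (RR p l g) / RR p l g ^ 2 := by ring
          _ ≤ _ := by gcongr)
    (by have := vBg_abs hp hp1 hg h1 h2
        calc _ ≤ _ := this
          _ ≤ _ := by gcongr; norm_num)
  rw [FBll_eq hp hp1 hg, FBg_eq hp hp1 hg]
  refine key.trans ?_
  have : (9 * m / (1 - p)) ^ 2 / 2 + 9 * m / (1 - p) * m / 4 ≤
    (9 * m / (1 - p)) ^ 2 / 2 + 9 * m / (1 - p) * m / 4 + 1 := by linarith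
  gcongr ?_ * _ * _ / _

end Pool.Agent.H86.EC
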