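import Pool.Agent.H86.EC.A5

/-!
# EHP: the field `left` of `FHyp` for `F_A` and `F_B` (bounds for `l → -∞`)
-/

set_option autoImplicit false

noncomputable section

namespace Pool.Agent.H86.EC

open Pool.EH Real

theorem cosh_le_two {g : ℝ} (hg : 0 < g) (hg1 : g ≤ 1) : cosh g ≤ 2 := by
  have h1 : cosh g ≤ cosh 1 := by
    rw [cosh_le_cosh, abs_of_pos hg, abs_one]; exact hg1
  have h2 : cosh 1 ≤ 2 := by
    rw [cosh_eq]
    have h3 := exp_one_lt_d9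
    have h4 : exp (-1) ≤ 1 := exp_le_one_iff.2 (by norm_num)
    linarith
  linarith

/-- bounds for quotients `v_l / s` etc. where `R` is bounded below -/
theorem quot_bounds {v vl vg vlg ρ R k r X s : ℝ} (hv : 0 < v) (hr : 0 < r) (hR : r ≤ R)
    (hρ : 0 ≤ ρ) (hk : 0 ≤ k) (hX : X = 1 + v) (hs : 0 < s) (hs2 : s ^ 2 = v ^ 2 + 2 * v)
    (h1 : |vl| ≤ ρ * v / R) (h3 : vg ^ 2 ≤ k * v / R) (h4 : vlg ^ 2 ≤ k * ρ ^ 2 * v / R ^ 3) :
    |vl / s| ≤ 1 / r * ρ ∧ |vg / s| ≤ 1 + k / (2 * r) ∧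
      |vlg / s - X * vl * vg / s ^ 3| ≤
        ((1 + k / (2 * r ^ 3)) + 1 / r * (1 + k / (2 * r))) * ρ := by
  have hR0 : 0 < R := hr.trans_le hR
  have hX0 : 0 < X := by rw [hX]; linarith
  have hd : 2 * v ≤ s ^ 2 := by rw [hs2]; nlinarith [sq_nonneg v]
  have hsv : v ≤ s := by
    apply abs_le_of_sq_le_sq' _ hs.le |>.2
    rw [hs2]; linarith
  have a1 : |vl / s| ≤ 1 / r * ρ := by
    rw [abs_div, abs_of_pos hs, div_le_iff₀ hs]
    calc |vl| ≤ ρ * v / R := h1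
      _ ≤ ρ * s / r := by gcongr
      _ = _ := by ring
  have a2 : |vg / s| ≤ 1 + k / (2 * r) := by
    apply abs_le_of_sq_le_sq _ (by positivity)
    calc (vg / s) ^ 2 = vg ^ 2 / s ^ 2 := by rw [div_pow]
      _ ≤ (k * v / R) / (2 * v) := by gcongr
      _ = k / (2 * R) := by field_simp
      _ ≤ k / (2 * r) := by gcongr
      _ ≤ (1 + k / (2 * r)) ^ 2 := by
          have : 0 ≤ k / (2 * r) := by positivity
          nlinarith
  have a3 : |vlg / s| ≤ (1 + k / (2 * r ^ 3)) * ρ := by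
    apply abs_le_of_sq_le_sq _ (by positivity)
    calc (vlg / s) ^ 2 = vlg ^ 2 / s ^ 2 := by rw [div_pow]
      _ ≤ (k * ρ ^ 2 * v / R ^ 3) / (2 * v) := by gcongr
      _ = k / (2 * R ^ 3) * ρ ^ 2 := by field_simp
      _ ≤ k / (2 * r ^ 3) * ρ ^ 2 := by gcongr
      _ ≤ ((1 + k / (2 * r ^ 3)) * ρ) ^ 2 := by
          have : 0 ≤ k / (2 * r ^ 3) := by positivity
          have h5 : k / (2 * r ^ 3) ≤ (1 + k / (2 * r ^ 3)) ^ 2 := by nlinarith
          calc _ ≤ (1 + k / (2 * r ^ 3)) ^ 2 * ρ ^ 2 := by gcongr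
            _ = _ := by ring
  have a4 : |X * vl * vg / s ^ 3| ≤ 1 / r * (1 + k / (2 * r)) * ρ := by
    have e : X * vl * vg / s ^ 3 = (X * vl / s ^ 2) * (vg / s) := by field_simp
    have h6 : |X * vl / s ^ 2| ≤ 1 / r * ρ := by
      rw [abs_div, abs_mul, abs_of_pos hX0, abs_of_pos (by positivity : 0 < s ^ 2),
        div_le_iff₀ (by positivity)]
      calc X * |vl| ≤ X * (ρ * v / R) := by gcongr
        _ = ρ / R * (X * v) := by ring
        _ ≤ ρ / r * s ^ 2 := by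
            have : X * v ≤ s ^ 2 := by rw [hX, hs2]; nlinarith
            gcongr
        _ = _ := by ring
    rw [e, abs_mul]
    calc |X * vl / s ^ 2| * |vg / s| ≤ (1 / r * ρ) * (1 + k / (2 * r)) := by gcongr
      _ = _ := by ring
  refine ⟨a1, a2, ?_⟩
  calc |vlg / s - X * vl * vg / s ^ 3| ≤ |vlg / s| + |X * vl * vg / s ^ 3| := abs_sub _ _
    _ ≤ (1 + k / (2 * r ^ 3)) * ρ + 1 / r * (1 + k / (2 * r)) * ρ := by gcongr
    _ = _ := by ring

theorem RR_ge_left {p l g : ℝ} (hp : 0 < p) (hp1 : p < 1) (hg : 0 < g) (hl : rh l ≤ p / 2) :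
    p / 2 ≤ RR p l g := by
  have h := pt (l := l) hp hp1 hg
  have h1 := _root_.abs_le.1 h.abs_le'
  have h2 := h.C1
  nlinarith

/-- `FHyp.left` for `F_A` -/
theorem left_A {p : ℝ} (hp : 0 < p) (hp1 : p < 1) : ∃ K, ∀ l g, rh l ≤ p / 2 → 0 < g → g ≤ 1 →
    |FAl p l g| ≤ K * rh l ∧ |FAg p l g| ≤ K ∧ |FAgl p l g| ≤ K * rh l := by
  have hq : 0 < 1 - p := by linarith
  set k : ℝ := 8 * 6 ^ 2 / (1 - p) with hk
  have hk0 : 0 < k := by positivity
  have hr : 0 < p / 2 := by linarith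
  refine ⟨1 / (p / 2) + (1 + k / (2 * (p / 2))) +
    ((1 + k / (2 * (p / 2) ^ 3)) + 1 / (p / 2) * (1 + k / (2 * (p / 2)))), fun l g hl hg hg1 => ?_⟩
  have h := pt (l := l) hp hp1 hg
  have hρ := h.ρ0
  have hR := h.R0
  have hv := vA_pos h
  have b : Bdd (rh l) (cosh g) (RR p l g) 6 := by
    have := bdd (l := l) (m := 2) hp hp1 hg (by linarith) (cosh_le_two hg hg1)
    norm_num at this; exact this
  have key := quot_bounds (k := k) hv hr (RR_ge_left hp hp1 hg hl) h.ρ0.le hk0.le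
    (by rw [vA_cosh hp hp1 hg]; ring : cosh (FA p l g) = 1 + vA p (rh l) (cosh g) (RR p l g))
    (sinh_FA_pos hp hp1 l hg) (sinh_sq_vA hp hp1 hg) (vAl_le h)
    (by calc _ ≤ _ := vAg_le h b
          _ ≤ _ := by rw [hk]; gcongr; norm_num) (vAlg_le h b)
  rw [FAl_eq hp hp1 hg, FAg_eq hp hp1 hg, FAgl_eq hp hp1 hg]
  obtain ⟨c1, c2, c3⟩ := key
  have d1 : 0 ≤ 1 / (p / 2) := by positivity
  have d2 : 0 ≤ 1 + k / (2 * (p / 2)) := by positivity
  have d3 : 0 ≤ (1 + k / (2 * (p / 2) ^ 3)) + 1 / (p / 2) * (1 + k / (2 * (p / 2))) := by positivity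
  refine ⟨c1.trans ?_, c2.trans ?_, c3.trans ?_⟩
  · exact mul_le_mul_of_nonneg_right (by linarith) hρ.le
  · linarith
  · exact mul_le_mul_of_nonneg_right (by linarith) hρ.le

/-- `FHyp.left` for `F_B` -/
theorem left_B {p : ℝ} (hp : 0 < p) (hp1 : p < 1) : ∃ K, ∀ l g, rh l ≤ p / 2 → 0 < g → g ≤ 1 →
    |FBl p l g| ≤ K * rh l ∧ |FBg p l g| ≤ K ∧ |FBgl p l g| ≤ K * rh l := by
  have hq : 0 < 1 - p := by linarith
  set k : ℝ := 8 * 6 ^ 2 / (p * (1 - p) ^ 2) with hk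
  have hk0 : 0 < k := by positivity
  have hr : 0 < p / 2 := by linarith
  refine ⟨1 / (p / 2) + (1 + k / (2 * (p / 2))) +
    ((1 + k / (2 * (p / 2) ^ 3)) + 1 / (p / 2) * (1 + k / (2 * (p / 2)))), fun l g hl hg hg1 => ?_⟩
  have h := pt (l := l) hp hp1 hg
  have hρ := h.ρ0
  have hR := h.R0
  have hv := vB_pos h
  have b : Bdd (rh l) (cosh g) (RR p l g) 6 := by
    have := bdd (l := l) (m := 2) hp hp1 hg (by linarith) (cosh_le_two hg hg1)
    norm_num at this; exact this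
  have key := quot_bounds (k := k) hv hr (RR_ge_left hp hp1 hg hl) h.ρ0.le hk0.le
    (by rw [vB_cosh hp hp1 hg]; ring : cosh (FB p l g) = 1 + vB p (rh l) (cosh g) (RR p l g))
    (sinh_FB_pos hp hp1 l hg) (sinh_sq_vB hp hp1 hg) (vBl_le h) (vBg_le h b)
    (by calc _ ≤ _ := vBlg_le h b
          _ ≤ _ := by
            rw [hk]
            gcongr
            nlinarith [sq_nonneg (1 - p)])
  rw [FBl_eq hp hp1 hg, FBg_eq hp hp1 hg, FBgl_eq hp hp1 hg]
  obtain ⟨c1, c2, c3⟩ := key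
  have d1 : 0 ≤ 1 / (p / 2) := by positivity
  have d2 : 0 ≤ 1 + k / (2 * (p / 2)) := by positivity
  have d3 : 0 ≤ (1 + k / (2 * (p / 2) ^ 3)) + 1 / (p / 2) * (1 + k / (2 * (p / 2))) := by positivity
  refine ⟨c1.trans ?_, c2.trans ?_, c3.trans ?_⟩
  · exact mul_le_mul_of_nonneg_right (by linarith) hρ.le
  · linarith
  · exact mul_le_mul_of_nonneg_right (by linarith) hρ.le

end Pool.Agent.H86.EC
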